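import Pool.Agent.H856.PR.Port
import Pool.Agent.H856.PR.Good
import Pool.Graph.R_pool_sql_team_seeded_2aa45f1a.Q64.M.Sing

/-!
# The Tate conjectures for `A × X`, for singular varieties `X`, where the Frobenius of the abelian variety `A` has degree two over a field with
# one place above `p`: an exact slope criterion

Let `E` be a number field, Galois over `ℚ`, totally real or CM, with only one place above the prime
number `p`, and `q = p ^ a`. Let `P i`, `i ∈ I`, be finitely many monic polynomials of degree two
with coefficients in the ring of integers of `E`, such that all the conjugates `Γ x` of their roots
have the absolute value `√q`, and which are not supersingular: the smaller slope `s i` of `P i` is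
not `1 / 2` (`NotSS`; `a [E : ℚ] (s i)` is the valuation `ht` of the norm of the linear
coefficient). For example the `P i` are the characteristic polynomials over `E` of the Frobenius
endomorphisms of abelian varieties `A i` over the field with `q` elements, of dimension
`[E : ℚ]`, with multiplication by `E`; or of powers of abelian varieties `A i` whose Frobenius
eigenvalues have degree at most two over `E`. We assume that two of the numbers `Γ x` are equal if
they are equal up to a root of unity (`reduced`); this can be achieved by a finite extension of the
ground field. Let `M` be a field of complex numbers, of finite or infinite degree over `ℚ`,
which contains the conjugates of `E` and none of the numbers `Γ x` (`Avoids`).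

1. There are no relations between the numbers `Γ x` and the numbers with a power in `M`, but those
which come from the pairs with the product `q` (`NoRelations`), if and only if (`SameSlopes`)
`s i = s j` for all `i`, `j` such that the quadratic extensions of `E` given by `P i` and `P j` are
conjugate: `disc (P i) σ (disc (P j))` is a square in `E` for an automorphism `σ` of `E`. For
example this is so if all `P i` are ordinary.

2. Suppose that this condition is satisfied. Let the `f j` be monic polynomials with integral
coefficients whose complex roots are among the numbers `Γ x` (as the characteristic polynomials of
the `A i`), and let `A` be an abelian variety over the field with `Q = q ^ s` elements, `s > 0`,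
which is isogenous to a product of powers of abelian varieties with the characteristic polynomials
`f j`. Let `k` be a finitely generated field which contains
the field with `Q` elements, and let `X` be **any** variety over `k` (a separated scheme of finite
type; it may be singular, reducible and not proper). Suppose that there is a variety over the
field with `Q` elements with the function field `k`, and a point of it with `Q` elements in the
residue field, in the open set over which the `ℓ`-adic homology of the fibres of a model of `X` is
lisse, such that the eigenvalues of the Frobenius element of this **one** point on the `ℓ`-adic
homology of `X` have powers in `M` (`PowerIn`).

**For every `b` statement (a) of Q1 is true for `A × X` in dimension `b` (the map from `CH_b(A ×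
X) ⊗ ℚ_ℓ` to the space of the invariants of the Galois group of `k` in `H_(2 b)(b)` is onto) if
and only if it is true for `X` in all the dimensions `b - l`, `0 ≤ l ≤ dim A`. The same holds for
statement (b)** (`B_b` is finitely generated, and `B_b ⊗ ℚ_ℓ` is isomorphic to the space of the
Galois invariants). No resolution of singularities, no good proper cover and no case of the
conjectures is assumed.

The theorems of Jannsen which are known reduce the statements for `X` to statements for smooth
projective varieties, the products `X'' × X''` among them, and need good proper covers in
characteristic `p`. Here both sides of the equivalence are about singular and open varieties, and
the products `A × X` are reduced to `X`.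

What is used of `A` are known theorems (`IsAbelian`): `H(A)` is generated by `H^1`, Frobenius is
diagonalizable on `H^1` (Weil), the theorem of Tate on divisors, and the nilpotence of
homologically trivial correspondences (Kimura). The `ℓ`-adic homology `R` of `X` and `A × X` over
an algebraic closure of `k` is modelled by `RelData`, with the formal properties in `IsRel`:
degrees, products with classes on `A`, push-forward to `X`, the projection formula, the operation
of the correspondences of `A`. The group of bidegree `(i, j)` of `X` is `H_(-i)(X, -j)`, and the
group of bidegree `(i, j)` of `A × X` is `H_(2 d - i)(A × X, d - j)`, `d = dim A`. `frobN` and
`frobM` are the operations of the Frobenius element on `H(X)`, and `InvN`, `InvM` are the elements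
on which the Frobenius element acts through the Tate twist. `L` is the coefficient field.
`IsClassData` collects the properties of the classes of cycles (as subgroups of the homology with
coefficients in `ℚ_ℓ`; the torsion in the homology with coefficients in `ℤ_ℓ` is finite) and of
the Galois invariants: products with classes on `A` and push-forwards of classes of cycles (up to
a common denominator) are classes of cycles, the same for Galois invariants, as the classes on `A`
are defined over the finite field.

The framework and the geometric part (`singularTateReduces`) are those of the library (helper492 and the
hand-ins `AllCMTypesTimes`), as in the hand-ins `SharpExceptionalSet` and `FactorizationCriterion`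
of this run, which ask that there are no relations. The new part is the criterion: which abelian
varieties with multiplication by the given field `E` have no relations, with arbitrary other
factors, by the slopes alone; there is no assumption on the Galois groups of the fields of the
Frobenius elements, and the `A i` may have any dimension and number. The Tate classes on the
products of the `A i` themselves, without the assumption `reduced` and with supersingular
factors, are in `MP_ee618e_ag.ProductsWithOnePlace`.

The proof of 1. Let `v` be a place above `p` of the algebraic numbers. As `E` has only one place above
`p`, all places are `v g`, where `g` fixes `E`. Such `g` permute the two roots of each `φ (P i)`,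
by a character of order at most two, so `v (g Γ x) - v (q) / 2` is `± (1 / 2 - s i) v (q) χ_x (g)`.
Suppose that a product of numbers `Γ x` has a power in `M`. As `Γ x` is not in `M`, there is a `g₀`
which fixes `M` with `χ_x (g₀) = - 1`; the quotient of the product by its image under `g₀` is a root of
unity. By the independence of characters the part of the product with the character `χ_x` has
the same valuation as its conjugate; if all slopes in it are equal, it contains two numbers
with opposite signs, whose product is `q` up to a root of unity. If there are different
slopes, a product of powers of two numbers is a relation.
-/

set_option autoImplicit false

namespace Pool.Agent.Results.MP_4776b1_ag.OnePlaceProducts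

open Polynomial Pool.Agent.H856.PR Pool.Agent.Q64.L Pool.Agent.Q64.M

/-- **The criterion**, and the reduction. -/
theorem result {p a : ℕ} [Fact p.Prime] {E : Type} [Field E] [NumberField E] {I : Type}
    [Fintype I] {P : I → E[X]} {Γ : (I × (E →+* ℂ)) × Fin 2 → ℂ} (h : IsFamily p a P Γ)
    {M : Subfield ℂ} (hM : Avoids Γ M) :
    (NoRelations ((p : ℂ) ^ a) Γ M ↔ SameSlopes p P) ∧
    (SameSlopes p P → ∀ (J : Type) (f : J → ℤ[X]), (∀ j, (f j).Monic) →
      (∀ j (z : ℂ), aeval z (f j) = 0 → ∃ x, Γ x = z) →
      SingularTateReduces (RootsIn (PowerIn M)) (p ^ a) f) :=
  ⟨criterion h hM, fun hs _ _ hf hroot => singularTateReduces (one_lt_pow₀
    (Fact.out : p.Prime).one_lt h.pos.ne') (good_of_noRel (noRel h hs hM hf hroot) (not_powerIn_zero M))⟩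

end Pool.Agent.Results.MP_4776b1_ag.OnePlaceProducts
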