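import Pool.Agent.H857.MX.Master
import Pool.Agent.H857.MX.Good
import Pool.Graph.R_pool_sql_team_seeded_2aa45f1a.Q64.M.Sing

/-!
# MP_4776b1_ag: the Tate conjectures for singular varieties over finitely generated fields, for `A
× X` with arbitrary `X` and all constant abelian varieties `A` but a set of isogeny classes of the
exact order of magnitude of its size

Let `g i` (`i` in a finite set `I`) be positive integers. For a prime power `q = p ^ a` let
`families g p a` be the finite set of the families `f i` of Weil polynomials of degrees `2 g i`
relative to `q` with integral Newton polygons. It contains the families of the characteristic
polynomials of the Frobenius endomorphisms of abelian varieties `A i` of dimensions `g i` over the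
field with `q` elements (Weil), which determine the `A i` up to isogeny (Tate). It has about `q ^
(∑ g i (g i + 1) / 4)` elements.

Let the `ρ k` be `r` Weil numbers of weights less than `c` with slopes in `(1 / D) ℤ`, for
instance the eigenvalues of the Frobenius element of one point with `q` elements in the residue
field on the `ℓ`-adic homology of a variety over a finitely generated field. The family `f` is
exceptional if there is a multiplicative relation between roots of the `f i`, the numbers `ρ k`
and `q`, up to roots of unity, which does not come from the pairs of conjugate roots `z`, `q / z`.

1. The proportion of the exceptional families among all the families is of the exact order of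
magnitude `∑ q ^ (- δ (g i) / 2)`, where `δ (g) = g` for `g ≠ 2` and `δ (2) = 1`: it is at most
`C` times, and at least `1 / C` times this sum. The constant `C` depends only on the `g i`, on
`r`, `c` and `D` - not on `p`, `q` and the `ρ k`.

2. Let `f` be a family which is not exceptional, and let `A` be an abelian variety over the field
with `Q = q ^ s` elements, `s > 0`, which is isogenous to a product of powers of abelian varieties
`A i` with characteristic polynomials `f i`. Let `k` be a finitely generated field which contains
the field with `Q` elements, and let `X` be **any** variety over `k` (a separated scheme of finite
type; it may be singular, reducible and not proper). Suppose that there is a variety over the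
field with `Q` elements with the function field `k`, and a point of it with `Q` elements in the
residue field, in the open set over which the `ℓ`-adic homology of the fibres of a model of `X` is
lisse, such that the eigenvalues of the Frobenius element of this **one** point on the `ℓ`-adic
homology of `X` lie, up to powers, in the group generated by the `ρ k` and `q` (`Generated`).

**For every `b` statement (a) of Q1 is true for `A × X` in dimension `b` (the map from `CH_b(A ×
X) ⊗ ℚ_ℓ` to the space of the invariants of the Galois group of `k` in `H_(2 b)(b)` is onto) if
and only if it is true for `X` in all the dimensions `b - l`, `0 ≤ l ≤ dim A`. The same holds for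
statement (b)** (`B_b` is finitely generated, and `B_b ⊗ ℚ_ℓ` is isomorphic to the space of the
Galois invariants). No resolution of singularities, no good proper cover and no case of the
conjectures is assumed.

The theorems of Jannsen which are known reduce the statements for `X` to statements for smooth
projective varieties, the products `X'' × X''` among them, and need good proper covers in
characteristic `p`. Here both sides of the equivalence are about singular and open varieties, and
the products `A × X` are reduced to `X`.

What is used of `A` are known theorems (`IsAbelian`): `H(A)` is generated by `H^1`, Frobenius is
diagonalizable on `H^1` (Weil), the theorem of Tate on divisors, and the nilpotence of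
homologically trivial correspondences (Kimura). The `ℓ`-adic homology `R` of `X` and `A × X` over
an algebraic closure of `k` is modelled by `RelData`, with the formal properties in `IsRel`:
degrees, products with classes on `A`, push-forward to `X`, the projection formula, the operation
of the correspondences of `A`. The group of bidegree `(i, j)` of `X` is `H_(-i)(X, -j)`, and the
group of bidegree `(i, j)` of `A × X` is `H_(2 d - i)(A × X, d - j)`, `d = dim A`. `frobN` and
`frobM` are the operations of the Frobenius element on `H(X)`, and `InvN`, `InvM` are the elements
on which the Frobenius element acts through the Tate twist. `L` is the coefficient field.
`IsClassData` collects the properties of the classes of cycles (as subgroups of the homology with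
coefficients in `ℚ_ℓ`; the torsion in the homology with coefficients in `ℤ_ℓ` is finite) and of
the Galois invariants: products with classes on `A` and push-forwards of classes of cycles (up to
a common denominator) are classes of cycles, the same for Galois invariants, as the classes on `A`
are defined over the finite field.

The framework and the geometric part (`Q64.M.singularTateReduces`) are those of the theorem
`AllCMTypesTimesAny` of the library, which bounds the number of the exceptional slope types of CM
fields and asks that the eigenvalues of the other factor are unrelated to these fields. In other
theorems of the library the exceptional set of isogeny classes has a proportion `O (q ^ (-1 / 6)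
log q)`, without a lower bound, for other factors with eigenvalues in a group of small rank over a
fixed number field. New here are the arbitrary eigenvalues, the uniformity in `p` and the exact
order of magnitude of the exceptional set. The count is that of MP_557161_ag: the slopes bound the
exponents of the relations, up to proportionality, and each relation is a nontrivial algebraic
equation for the coefficients on almost all pencils of Weil polynomials, by the expansions of the
roots at infinity.
-/

set_option autoImplicit false

namespace Pool.Agent.Results.MP_4776b1_ag.SharpExceptionalSet

open Pool.Agent.H857.SX Pool.Agent.H857.MX Pool.Agent.Q64.L Pool.Agent.Q64.M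

/-- **The exceptional set.** -/
theorem result {I : Type} [Fintype I] (g : I → ℕ) (hg : ∀ i, 0 < g i) (r D c : ℕ) (hD : 0 < D) :
    ∃ C : ℝ, 0 < C ∧ ∀ (p : ℕ) [Fact p.Prime] (a : ℕ), 0 < a →
      ((families g p a).Finite ∧
        ∏ i, Real.sqrt ((p : ℝ) ^ a) ^ (g i * (g i + 1) / 2) ≤ C * (families g p a).ncard ∧
        (families g p a).ncard ≤ C * ∏ i, Real.sqrt ((p : ℝ) ^ a) ^ (g i * (g i + 1) / 2)) ∧
      ∀ (w : Fin r → ℕ) (ρ : Fin r → ℂ), (∀ k, w k < c ∧ IsWeilNumber p a D (w k) (ρ k)) →
        (({f ∈ families g p a | ¬ Independent f (p ^ a) ρ}.ncard : ℝ) ≤
            C * (rate g ((p : ℝ) ^ a) * (families g p a).ncard) ∧
          rate g ((p : ℝ) ^ a) * (families g p a).ncard ≤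
            C * {f ∈ families g p a | ¬ Independent f (p ^ a) ρ}.ncard) ∧
        ∀ f ∈ families g p a, Independent f (p ^ a) ρ →
          SingularTateReduces (RootsIn (Generated (p ^ a) ρ)) (p ^ a) f :=
  Pool.Agent.H857.MX.master g hg r D c hD (fun q f R => SingularTateReduces (RootsIn R) q f)
    fun _ _ _ hq _ h0 hR => singularTateReduces hq (good_of_noRel hR h0)

end Pool.Agent.Results.MP_4776b1_ag.SharpExceptionalSet
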